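import Pool.Agent.FZ86.Setup

/-!
# The start: the greedy family of the named rows, and the repair of its sections
-/

open Finset

set_option autoImplicit false
set_option linter.unusedSectionVars false

namespace Pool.Agent.GS66

open Pool.Agent.Rl45 Pool.Agent.V3R Pool.Agent.GK71

/-- The greedy family for the rows outside `M`, with names instead of symbols. -/
theorem named_greedy {g n : ℕ} {S : Type*} [Fintype S] [DecidableEq S] (hn : 1 ≤ n)
    (M : Finset (Fin g)) (Lc : Finset (Rw g n × Fin n))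
    (hLc : ∀ e, e ∈ Lc ↔ ∃ c, c ∉ M ∧ e.1 = Sum.inl c) (nm : Rw g n × Fin n → S)
    (hnm : ∀ c, c ∉ M → ∀ v v', nm (Sum.inl c, v) = nm (Sum.inl c, v') → v = v') :
    ∃ (N d : ℕ) (H : Finset (Rw g n × Fin n)), N + d = g - M.card ∧ d ≤ D0 n ∧ H ⊆ Lc ∧
      Cov (fun r v => nm (r, v)) N (Lc \ H) ∧
      (∀ v, (H.filter fun e => e.2 = v).card = d) ∧
      ∀ y, (H.filter fun e => nm e = y).card ≤ d := by
  classical
  set L := Mᶜ with hL
  obtain ⟨e⟩ : Nonempty (Fin L.card ≃ L) :=
    ⟨(Fintype.equivFinOfCardEq (Fintype.card_coe L)).symm⟩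
  have heL : ∀ i, (e i : Fin g) ∉ M := by
    intro i h
    exact (mem_compl.1 (e i).2) h
  obtain ⟨N, T₁, hN, h1, h2, h3, hFcol, h4⟩ :=
    final_D0 hn (fun (i : Fin L.card) v => nm (Sum.inl (e i : Fin g), v))
      (fun i v v' h => hnm _ (heL i) v v' h)
  have hML : M.card + L.card = g := by
    rw [hL, card_add_card_compl, Fintype.card_fin]
  let T : Fin N → Fin n → Rw g n := fun s v => Sum.inl (e (T₁ s v) : Fin g)
  let φ : Fin L.card × Fin n → Rw g n × Fin n := fun c => (Sum.inl (e c.1 : Fin g), c.2)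
  have hφ : Function.Injective φ := by
    intro c c' h
    have h5 := Prod.mk.inj h
    exact Prod.ext (e.injective (Subtype.ext (Sum.inl_injective h5.1))) h5.2
  set F : Finset (Fin L.card × Fin n) := univ.filter (fun c => ∀ s, T₁ s c.2 ≠ c.1) with hF
  set H := F.image φ with hH
  refine ⟨N, L.card - N, H, by omega, by omega, ?_, ⟨T, ?_, ?_, ?_, ?_⟩, ?_, ?_⟩
  · intro c hc
    rw [hH, mem_image] at hc
    obtain ⟨c', -, rfl⟩ := hc
    exact (hLc _).2 ⟨_, heL c'.1, rfl⟩
  · intro s v v' h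
    exact h1 s (e.injective (Subtype.ext (Sum.inl_injective h)))
  · intro s v v' h
    exact h2 s h
  · intro v s s' h
    exact h3 v (e.injective (Subtype.ext (Sum.inl_injective h)))
  · rintro ⟨r, v⟩
    rw [mem_sdiff, hLc]
    constructor
    · rintro ⟨⟨i, hi, h5⟩, h6⟩
      have h5' : r = Sum.inl i := h5
      subst h5'
      have hiL : i ∈ L := mem_compl.2 hi
      have h7 : (e (e.symm ⟨i, hiL⟩) : Fin g) = i := by rw [Equiv.apply_symm_apply]
      by_contra hcon
      push Not at hcon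
      apply h6
      rw [hH, mem_image]
      refine ⟨(e.symm ⟨i, hiL⟩, v), mem_filter.2 ⟨mem_univ _, ?_⟩, ?_⟩
      · intro s hs
        apply hcon s
        change Sum.inl (e (T₁ s v) : Fin g) = Sum.inl i
        rw [hs, h7]
      · simp only [φ, h7]
    · rintro ⟨s, hs⟩
      have hs' : Sum.inl (e (T₁ s v) : Fin g) = r := hs
      refine ⟨⟨_, heL (T₁ s v), hs'.symm⟩, ?_⟩
      rw [hH, mem_image]
      rintro ⟨c, hc, h5⟩
      have h6 := Prod.mk.inj h5
      rw [hF, mem_filter] at hc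
      apply hc.2 s
      have h7 : (e (T₁ s v) : Fin g) = (e c.1 : Fin g) := by
        have h8 := h6.1.trans hs'.symm
        exact (Sum.inl_injective h8).symm
      rw [h6.2]
      exact e.injective (Subtype.ext h7)
  · intro v
    rw [← hFcol v, ← card_image_of_injective (F.filter fun c => c.2 = v) hφ]
    congr 1
    ext c
    rw [mem_filter, hH, mem_image, mem_image]
    constructor
    · rintro ⟨⟨c', h5, rfl⟩, h6⟩
      exact ⟨c', mem_filter.2 ⟨h5, h6⟩, rfl⟩
    · rintro ⟨c', h5, rfl⟩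
      rw [mem_filter] at h5
      exact ⟨⟨c', h5.1, rfl⟩, h5.2⟩
  · intro y
    refine le_trans (le_of_eq ?_) (h4 y)
    rw [← card_image_of_injective _ hφ]
    congr 1
    ext c
    rw [mem_filter, hH, mem_image, mem_image]
    constructor
    · rintro ⟨⟨c', h5, rfl⟩, h6⟩
      exact ⟨c', mem_filter.2 ⟨h5, h6⟩, rfl⟩
    · rintro ⟨c', h5, rfl⟩
      rw [mem_filter] at h5
      exact ⟨⟨c', h5.1, rfl⟩, h5.2⟩

/-- The greedy family, in the form that is used at the start. -/
theorem exists_init_L {g n k : ℕ} (hn : 1 ≤ n) (A : Fin g → Fin n → Fin k)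
    (hA : ∀ i, Function.Injective (A i)) (M : Finset (Fin g)) :
    ∃ (N d : ℕ) (C H : Finset (Rw g n × Fin n)), N + d = Mᶜ.card ∧ d ≤ D0 n ∧
      Cov (ext A) N C ∧ Disjoint C H ∧ C ∪ H = FZ86.Lc M ∧
      (∀ v, (H.filter fun e => e.2 = v).card = d) ∧
      ∀ y, (H.filter fun e => sm (ext A) e = y).card ≤ d := by
  obtain ⟨N, d, H, h1, h2, h3, h4, h5, h6⟩ := named_greedy hn M (FZ86.Lc M)
    (fun _ => FZ86.mem_Lc) (sm (ext A)) (fun c _ v v' h => hA c h)
  refine ⟨N, d, FZ86.Lc M \ H, H, ?_, h2, h4, sdiff_disjoint, sdiff_union_of_subset h3, h5, h6⟩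
  rw [card_compl, Fintype.card_fin]
  exact h1

end Pool.Agent.GS66
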