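import Mathlib

/-!
# The closed form of the number of rows
-/

set_option autoImplicit false

namespace Pool.Agent.GS66

theorem log_mul_le {a b : ℕ} (ha : 1 ≤ a) (hb : 1 ≤ b) :
    Nat.log 2 (a * b) ≤ Nat.log 2 a + Nat.log 2 b + 1 := by
  have h1 : a < 2 ^ (Nat.log 2 a + 1) := Nat.lt_pow_succ_log_self (by norm_num) a
  have h2 : b < 2 ^ (Nat.log 2 b + 1) := Nat.lt_pow_succ_log_self (by norm_num) b
  have h3 : a * b < 2 ^ (Nat.log 2 a + Nat.log 2 b + 1 + 1) := by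
    calc a * b < 2 ^ (Nat.log 2 a + 1) * 2 ^ (Nat.log 2 b + 1) :=
          Nat.mul_lt_mul'' h1 h2
      _ = 2 ^ (Nat.log 2 a + Nat.log 2 b + 1 + 1) := by
          rw [← pow_add]
          congr 1
          ring
  have h4 : a * b ≠ 0 := by positivity
  exact Nat.lt_succ_iff.1 ((Nat.log_lt_iff_lt_pow (by norm_num) h4).2 h3)

theorem le_two_pow (t : ℕ) : t ≤ 2 ^ (t / 8 + 3) := by
  have h2 : t / 8 + 1 ≤ 2 ^ (t / 8) := Nat.lt_two_pow_self
  have h3 : t < 8 * (t / 8 + 1) := by omega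
  calc t ≤ 8 * (t / 8 + 1) := h3.le
    _ ≤ 8 * 2 ^ (t / 8) := Nat.mul_le_mul_left _ h2
    _ = 2 ^ (t / 8 + 3) := by rw [pow_add]; ring

/-- The part of the bound that contains `log₂ m`. -/
theorem log_part {n m : ℕ} (hn : 1 ≤ n) (hm : 2 ^ 27 * n ^ 2 * (Nat.log 2 n + 1) ^ 2 ≤ m) :
    4 * (64 * ((Nat.log 2 n + 7) * (n * (80 * n * (Nat.log 2 (n * m ^ 2) + 1))))) ≤ m := by
  obtain ⟨l, hl⟩ : ∃ l, l = Nat.log 2 n + 1 := ⟨_, rfl⟩
  obtain ⟨t, ht⟩ : ∃ t, t = Nat.log 2 m := ⟨_, rfl⟩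
  have hl1 : 1 ≤ l := by omega
  have hm1 : 1 ≤ m := by
    refine le_trans ?_ hm
    have : 0 < 2 ^ 27 * n ^ 2 * (Nat.log 2 n + 1) ^ 2 := by positivity
    omega
  have h1 : Nat.log 2 (n * m ^ 2) + 1 ≤ l + 2 * t + 2 := by
    have h2 := log_mul_le hn (b := m ^ 2) (Nat.one_le_pow _ _ hm1)
    have h3 := log_mul_le hm1 hm1
    rw [← pow_two] at h3
    omega
  have h2 : Nat.log 2 n + 7 ≤ 7 * l := by omega
  have h3 : 4 * (64 * ((Nat.log 2 n + 7) * (n * (80 * n * (Nat.log 2 (n * m ^ 2) + 1))))) ≤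
      143360 * n ^ 2 * (l * (l + 2 * t + 2)) := by
    calc 4 * (64 * ((Nat.log 2 n + 7) * (n * (80 * n * (Nat.log 2 (n * m ^ 2) + 1)))))
        ≤ 4 * (64 * ((7 * l) * (n * (80 * n * (l + 2 * t + 2))))) := by gcongr
      _ = 143360 * n ^ 2 * (l * (l + 2 * t + 2)) := by ring
  refine h3.trans ?_
  by_cases h : t ≤ 128 * l
  · have h4 : l + 2 * t + 2 ≤ 259 * l := by omega
    rw [← hl] at hm
    calc 143360 * n ^ 2 * (l * (l + 2 * t + 2)) ≤ 143360 * n ^ 2 * (l * (259 * l)) := by gcongr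
      _ = 37130240 * (n ^ 2 * l ^ 2) := by ring
      _ ≤ 2 ^ 27 * (n ^ 2 * l ^ 2) := Nat.mul_le_mul_right _ (by norm_num)
      _ = 2 ^ 27 * n ^ 2 * l ^ 2 := by ring
      _ ≤ m := hm
  · push Not at h
    have h4 : n ^ 2 ≤ 2 ^ (2 * l) := by
      have h5 : n < 2 ^ l := by
        rw [hl]
        exact Nat.lt_pow_succ_log_self (by norm_num) n
      calc n ^ 2 ≤ (2 ^ l) ^ 2 := Nat.pow_le_pow_left h5.le 2
        _ = 2 ^ (2 * l) := by rw [← pow_mul, mul_comm]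
    have h5 : l * (l + 2 * t + 2) ≤ 2 ^ 2 * (2 ^ (t / 8 + 3) * 2 ^ (t / 8 + 3)) := by
      have h6 := le_two_pow t
      calc l * (l + 2 * t + 2) ≤ t * (4 * t) := Nat.mul_le_mul (by omega) (by omega)
        _ = 2 ^ 2 * (t * t) := by ring
        _ ≤ 2 ^ 2 * (2 ^ (t / 8 + 3) * 2 ^ (t / 8 + 3)) := by gcongr
    have h6 : 2 ^ t ≤ m := by
      rw [ht]
      exact Nat.pow_log_le_self 2 (by omega)
    refine le_trans ?_ h6
    calc 143360 * n ^ 2 * (l * (l + 2 * t + 2))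
        ≤ 2 ^ 18 * 2 ^ (2 * l) * (2 ^ 2 * (2 ^ (t / 8 + 3) * 2 ^ (t / 8 + 3))) := by
          refine Nat.mul_le_mul (Nat.mul_le_mul (by norm_num) h4) h5
      _ = 2 ^ (18 + 2 * l + (2 + (t / 8 + 3 + (t / 8 + 3)))) := by
          rw [← pow_add, ← pow_add, ← pow_add, ← pow_add]
      _ ≤ 2 ^ t := Nat.pow_le_pow_right (by norm_num) (by omega)

end Pool.Agent.GS66
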